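import Pool.Agent.H58.FN.Targets
import Pool.Agent.H49.FL.INT

/-!
# Row INT of fnc_modules: integrality of the mean phase cochains
-/

set_option autoImplicit false

open Pool.Agent.H59 Pool.Agent.H48.FR Pool.Agent.H58.FL Pool.Agent.H30.FA Pool.Agent.H58.FM
  Pool.Agent.H58.FN

namespace Pool.Agent.H49.FN

theorem in_sum3 {a b c : ℕ} (p : Fin a → Fin b → Fin c → ℝ) (u : Fin b → Fin c → ℝ)
    (v : Fin a → Fin c → ℝ) (w : Fin a → Fin b → ℝ)
    (h : ∀ i j k, ∃ z : ℤ, p i j k - (u j k - v i k + w i j) = z) :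
    ∃ z : ℤ, ∑ i, ∑ j, ∑ k, p i j k - ((a : ℝ) * ∑ j, ∑ k, u j k - (b : ℝ) * ∑ i, ∑ k, v i k +
      (c : ℝ) * ∑ i, ∑ j, w i j) = z := by
  choose z hz using h
  refine ⟨∑ i, ∑ j, ∑ k, z i j k, ?_⟩
  push_cast
  simp_rw [← hz]
  simp only [Finset.sum_sub_distrib, Finset.sum_add_distrib, Finset.sum_const, Finset.card_univ,
    Fintype.card_fin, nsmul_eq_mul, ← Finset.mul_sum]

section geo

variable {E : Type} [NormedAddCommGroup E] [InnerProductSpace ℂ E]

theorem in_pa (a b c : E) (hab : inner ℂ a b ≠ 0) (hbc : inner ℂ b c ≠ 0)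
    (hac : inner ℂ a c ≠ 0) : ∃ z : ℤ, pa a b c - (th b c - th a c + th a b) = z :=
  (Pool.Agent.H49.FL.pf_INT E).2 a b c hab hbc hac

end geo

theorem pf_INT : Pool.Agent.H58.FN.T_INT := by
  intro E J X _ _ x A B S
  refine ⟨?_, ?_, ?_⟩
  · intro hA f hf g hg h hh
    obtain ⟨z, hz⟩ := in_sum3 (fun i j k => pa (x (A f i)) (x (A g j)) (x (A h k)))
      (fun j k => th (x (A g j)) (x (A h k))) (fun i k => th (x (A f i)) (x (A h k)))
      (fun i j => th (x (A f i)) (x (A g j))) (fun i j k => in_pa _ _ _ (hA f hf g hg i j)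
        (hA g hg h hh j k) (hA f hf h hh i k))
    refine ⟨z, ?_⟩
    rw [← hz]
    simp only [UU, d1]
    push_cast
    ring
  · intro hB f hf g hg h hh
    obtain ⟨z, hz⟩ := in_pa _ _ _ (hB f hf g hg) (hB g hg h hh) (hB f hf h hh)
    have h1 : UU x B f g h - d1 (fun f g => th (x (B f 0)) (x (B g 0))) f g h = z := by
      rw [← hz]
      simp [UU, d1]
    refine ⟨⟨z, h1⟩, ⟨64 * z, ?_⟩⟩
    push_cast
    rw [← h1]
    simp only [d1]
    ring
  · intro hA hAB hB f hf g hg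
    obtain ⟨z₁, hz₁⟩ := in_sum3 (fun (i j : Fin 4) (k : Fin 1) =>
        pa (x (A f i)) (x (A g j)) (x (B g k)))
      (fun j k => th (x (A g j)) (x (B g k))) (fun i k => th (x (A f i)) (x (B g k)))
      (fun i j => th (x (A f i)) (x (A g j))) (fun i j k => by
        obtain rfl : k = 0 := Subsingleton.elim _ _
        exact in_pa _ _ _ (hA f hf g hg i j) (hAB g hg g hg j) (hAB f hf g hg i))
    obtain ⟨z₂, hz₂⟩ := in_sum3 (fun (i : Fin 4) (j k : Fin 1) =>
        pa (x (A f i)) (x (B f j)) (x (B g k)))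
      (fun j k => th (x (B f j)) (x (B g k))) (fun i k => th (x (A f i)) (x (B g k)))
      (fun i j => th (x (A f i)) (x (B f j))) (fun i j k => by
        obtain rfl : k = 0 := Subsingleton.elim _ _
        obtain rfl : j = 0 := Subsingleton.elim _ _
        exact in_pa _ _ _ (hAB f hf f hf i) (hB f hf g hg) (hAB f hf g hg i))
    refine ⟨16 * z₂ - 4 * z₁, ?_⟩
    push_cast
    rw [← hz₁, ← hz₂]
    simp only [EE, Fin.sum_univ_one]
    push_cast
    ring

end Pool.Agent.H49.FN
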